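import Pool.Agent.BVM.Fml
import Pool.Agent.BVM.Notions

/-!
# Bounded formulas, `Σ₁` formulas, end extensions and upward absoluteness
-/

namespace Pool.Agent.H21Abs

open Pool.Agent.BVM

/-- bounded formulas: all quantifiers are of the form `∀ z ∈ x` or `∃ z ∈ x` -/
inductive Bdd : Fml → Prop
  | mem (i j : ℕ) : Bdd (.mem i j)
  | eq (i j : ℕ) : Bdd (.eq i j)
  | neg {a : Fml} : Bdd a → Bdd (.neg a)
  | and {a b : Fml} : Bdd a → Bdd b → Bdd (.and a b)
  | or {a b : Fml} : Bdd a → Bdd b → Bdd (.or a b)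
  | imp {a b : Fml} : Bdd a → Bdd b → Bdd (.imp a b)
  | iff {a b : Fml} : Bdd a → Bdd b → Bdd (.iff a b)
  | ball (i : ℕ) {a : Fml} : Bdd a → Bdd (.all (.imp (.mem 0 (i + 1)) a))
  | bex (i : ℕ) {a : Fml} : Bdd a → Bdd (.ex (.and (.mem 0 (i + 1)) a))

/-- `Σ₁` formulas: one unbounded existential quantifier in front of a bounded formula -/
def Sigma1 (φ : Fml) : Prop := ∃ ψ, Bdd ψ ∧ φ = .ex ψ

/-- the assignment `x ↦ a`, `y ↦ b` for the two free variables `x = 0`, `y = 1` (all other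
variables also get the value `b`) -/
def at2 {M : Type*} (a b : M) : ℕ → M
  | 0 => a
  | _ + 1 => b

/-- `(N, E')` is an end extension of `(M, E)` via the embedding `j`: membership between old
elements does not change and the elements of old elements are old.  (For instance `N` is a
generic extension of `M`.) -/
structure EndExt {M N : Type*} (E : M → M → Prop) (E' : N → N → Prop) (j : M → N) : Prop where
  /-- `j` is one-to-one -/
  inj : Function.Injective j
  /-- `j` respects membership -/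
  mem : ∀ x y, E' (j x) (j y) ↔ E x y
  /-- elements of old elements are old -/
  init : ∀ x y, E' y (j x) → ∃ z, y = j z

theorem comp_cons {M N : Type*} (j : M → N) (x : M) (v : ℕ → M) :
    j ∘ cons x v = cons (j x) (j ∘ v) := by
  funext k
  cases k <;> rfl

theorem comp_at2 {M N : Type*} (j : M → N) (x y : M) : j ∘ at2 x y = at2 (j x) (j y) := by
  funext k
  cases k <;> rfl

/-- bounded formulas are absolute for end extensions -/
theorem Bdd.absolute {M N : Type*} {E : M → M → Prop} {E' : N → N → Prop} {j : M → N}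
    (h : EndExt E E' j) {φ : Fml} (hφ : Bdd φ) : ∀ v : ℕ → M, Sat E' φ (j ∘ v) ↔ Sat E φ v := by
  induction hφ with
  | mem a b => exact fun v => h.mem _ _
  | eq a b => exact fun v => h.inj.eq_iff
  | neg _ ih => exact fun v => not_congr (ih v)
  | and _ _ ih1 ih2 => exact fun v => and_congr (ih1 v) (ih2 v)
  | or _ _ ih1 ih2 => exact fun v => or_congr (ih1 v) (ih2 v)
  | imp _ _ ih1 ih2 => exact fun v => imp_congr (ih1 v) (ih2 v)
  | iff _ _ ih1 ih2 => exact fun v => iff_congr (ih1 v) (ih2 v)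
  | ball i _ ih =>
    intro v
    constructor
    · intro H x hx
      have := H (j x) ((h.mem _ _).2 hx)
      rw [← comp_cons] at this
      exact (ih _).1 this
    · intro H y hy
      obtain ⟨z, rfl⟩ := h.init _ _ hy
      rw [← comp_cons]
      exact (ih _).2 (H z ((h.mem _ _).1 hy))
  | bex i _ ih =>
    intro v
    constructor
    · rintro ⟨y, hy, H⟩
      obtain ⟨z, rfl⟩ := h.init _ _ hy
      rw [← comp_cons] at H
      exact ⟨z, (h.mem _ _).1 hy, (ih _).1 H⟩
    · rintro ⟨x, hx, H⟩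
      refine ⟨j x, (h.mem _ _).2 hx, ?_⟩
      rw [← comp_cons]
      exact (ih _).2 H

/-- `Σ₁` formulas go up to end extensions -/
theorem Sigma1.up {M N : Type*} {E : M → M → Prop} {E' : N → N → Prop} {j : M → N}
    (h : EndExt E E' j) {φ : Fml} (hφ : Sigma1 φ) (v : ℕ → M) (H : Sat E φ v) :
    Sat E' φ (j ∘ v) := by
  obtain ⟨ψ, hψ, rfl⟩ := hφ
  obtain ⟨x, hx⟩ := H
  refine ⟨j x, ?_⟩
  rw [← comp_cons]
  exact (hψ.absolute h _).2 hx

theorem EndExt.tran {M N : Type*} {E : M → M → Prop} {E' : N → N → Prop} {j : M → N}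
    (h : EndExt E E' j) (x : M) : Tran E' (j x) ↔ Tran E x := by
  constructor
  · intro H y z hy hz
    exact (h.mem _ _).1 (H _ _ ((h.mem _ _).2 hy) ((h.mem _ _).2 hz))
  · intro H y z hy hz
    obtain ⟨y, rfl⟩ := h.init _ _ hy
    obtain ⟨z, rfl⟩ := h.init _ _ hz
    exact (h.mem _ _).2 (H _ _ ((h.mem _ _).1 hy) ((h.mem _ _).1 hz))

theorem EndExt.ordl {M N : Type*} {E : M → M → Prop} {E' : N → N → Prop} {j : M → N}
    (h : EndExt E E' j) (x : M) : Ordl E' (j x) ↔ Ordl E x := by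
  refine and_congr (h.tran x) ⟨fun H y hy => ?_, fun H y hy => ?_⟩
  · exact (h.tran y).1 (H _ ((h.mem _ _).2 hy))
  · obtain ⟨y, rfl⟩ := h.init _ _ hy
    exact (h.tran y).2 (H _ ((h.mem _ _).1 hy))

theorem EndExt.limit {M N : Type*} {E : M → M → Prop} {E' : N → N → Prop} {j : M → N}
    (h : EndExt E E' j) (x : M) : Limit E' (j x) ↔ Limit E x := by
  refine and_congr (h.ordl x) (and_congr ⟨?_, ?_⟩ ⟨fun H y hy => ?_, fun H y hy => ?_⟩)
  · rintro ⟨y, hy⟩
    obtain ⟨y, rfl⟩ := h.init _ _ hy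
    exact ⟨y, (h.mem _ _).1 hy⟩
  · rintro ⟨y, hy⟩
    exact ⟨j y, (h.mem _ _).2 hy⟩
  · obtain ⟨z, hz, hz'⟩ := H _ ((h.mem _ _).2 hy)
    obtain ⟨z, rfl⟩ := h.init _ _ hz
    exact ⟨z, (h.mem _ _).1 hz, (h.mem _ _).1 hz'⟩
  · obtain ⟨y, rfl⟩ := h.init _ _ hy
    obtain ⟨z, hz, hz'⟩ := H _ ((h.mem _ _).1 hy)
    exact ⟨j z, (h.mem _ _).2 hz, (h.mem _ _).2 hz'⟩

/-- `ω` is absolute -/
theorem EndExt.omega {M N : Type*} {E : M → M → Prop} {E' : N → N → Prop} {j : M → N}
    (h : EndExt E E' j) (x : M) (H : Omega E x) : Omega E' (j x) := by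
  refine ⟨(h.limit x).2 H.1, fun y hy hl => ?_⟩
  obtain ⟨y, rfl⟩ := h.init _ _ hy
  exact H.2 y ((h.mem _ _).1 hy) ((h.limit y).1 hl)

end Pool.Agent.H21Abs
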