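import Pool.Agent.BVM.Deep
import Pool.Agent.H21Abs.Abs

/-!
# The axioms of ZFC as formulas; structures with `ω, ω₁, ω₂`
-/

namespace Pool.Agent.H21Abs

open Pool.Agent.BVM

/-- lift a renaming under a quantifier -/
def lift (ρ : ℕ → ℕ) : ℕ → ℕ
  | 0 => 0
  | n + 1 => ρ n + 1

/-- rename the free variables -/
def ren : (ℕ → ℕ) → Fml → Fml
  | ρ, .mem i j => .mem (ρ i) (ρ j)
  | ρ, .eq i j => .eq (ρ i) (ρ j)
  | ρ, .neg a => .neg (ren ρ a)
  | ρ, .and a b => .and (ren ρ a) (ren ρ b)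
  | ρ, .or a b => .or (ren ρ a) (ren ρ b)
  | ρ, .imp a b => .imp (ren ρ a) (ren ρ b)
  | ρ, .iff a b => .iff (ren ρ a) (ren ρ b)
  | ρ, .all a => .all (ren (lift ρ) a)
  | ρ, .ex a => .ex (ren (lift ρ) a)

theorem cons_lift {M : Type*} (x : M) (v : ℕ → M) (ρ : ℕ → ℕ) :
    cons x v ∘ lift ρ = cons x (v ∘ ρ) := by
  funext k
  cases k <;> rfl

theorem sat_ren {M : Type*} (E : M → M → Prop) (φ : Fml) :
    ∀ (ρ : ℕ → ℕ) (v : ℕ → M), Sat E (ren ρ φ) v ↔ Sat E φ (v ∘ ρ) := by
  induction φ with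
  | mem i j => exact fun ρ v => Iff.rfl
  | eq i j => exact fun ρ v => Iff.rfl
  | neg a ih => exact fun ρ v => not_congr (ih ρ v)
  | and a b ih1 ih2 => exact fun ρ v => and_congr (ih1 ρ v) (ih2 ρ v)
  | or a b ih1 ih2 => exact fun ρ v => or_congr (ih1 ρ v) (ih2 ρ v)
  | imp a b ih1 ih2 => exact fun ρ v => imp_congr (ih1 ρ v) (ih2 ρ v)
  | iff a b ih1 ih2 => exact fun ρ v => iff_congr (ih1 ρ v) (ih2 ρ v)
  | all a ih =>
    exact fun ρ v => forall_congr' fun x => by rw [ih, cons_lift]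
  | ex a ih =>
    exact fun ρ v => exists_congr fun x => by rw [ih, cons_lift]

/-- `φ` holds under all assignments -/
def Valid {M : Type*} (E : M → M → Prop) (φ : Fml) : Prop := ∀ v : ℕ → M, Sat E φ v

/-- renaming for separation -/
def ρs : ℕ → ℕ
  | 0 => 0
  | k + 1 => k + 3

/-- renaming for replacement -/
def ρ1 : ℕ → ℕ
  | 0 => 0
  | 1 => 1
  | k + 2 => k + 3

/-- renaming for replacement -/
def ρ2 : ℕ → ℕ
  | 0 => 0
  | 1 => 2
  | k + 2 => k + 4

/-- renaming for replacement -/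
def ρ3 : ℕ → ℕ
  | 0 => 1
  | 1 => 0
  | k + 2 => k + 4

/-- extensionality -/
def axExt : Fml := .imp (.all (.iff (.mem 0 1) (.mem 0 2))) (.eq 0 1)
/-- foundation -/
def axFound : Fml :=
  .imp (.ex (.mem 0 1)) (.ex (.and (.mem 0 1) (.all (.imp (.mem 0 1) (.neg (.mem 0 2))))))
/-- pairing -/
def axPair : Fml := .ex (.all (.iff (.mem 0 1) (.or (.eq 0 2) (.eq 0 3))))
/-- union -/
def axUnion : Fml := .ex (.all (.iff (.mem 0 1) (.ex (.and (.mem 0 3) (.mem 1 0)))))
/-- power set -/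
def axPower : Fml := .ex (.all (.iff (.mem 0 1) (.all (.imp (.mem 0 1) (.mem 0 3)))))
/-- infinity -/
def axInf : Fml := .ex (.and (.ex (.and (.mem 0 1) (.all (.neg (.mem 0 1)))))
  (.all (.imp (.mem 0 1) (.ex (.and (.mem 0 2) (.all (.iff (.mem 0 1)
    (.or (.mem 0 2) (.eq 0 2)))))))))
/-- separation -/
def axSep (φ : Fml) : Fml := .ex (.all (.iff (.mem 0 1) (.and (.mem 0 2) (ren ρs φ))))
/-- replacement -/
def axRepl (φ : Fml) : Fml := .imp
  (.all (.imp (.mem 0 1) (.ex (.and (ren ρ1 φ) (.all (.imp (ren ρ2 φ) (.eq 0 1)))))))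
  (.ex (.all (.iff (.mem 0 1) (.ex (.and (.mem 0 3) (ren ρ3 φ))))))
/-- choice -/
def axChoice : Fml := .imp (.all (.imp (.mem 0 1) (.ex (.mem 0 1))))
  (.imp (.all (.all (.all (.imp (.mem 2 3) (.imp (.mem 1 3) (.imp (.mem 0 2) (.imp (.mem 0 1)
    (.eq 2 1))))))))
  (.ex (.all (.imp (.mem 0 2) (.ex (.and (.and (.mem 0 1) (.mem 0 2))
    (.all (.imp (.and (.mem 0 2) (.mem 0 3)) (.eq 0 1)))))))))

/-- the axioms of ZFC, as a set of formulas -/
inductive Ax : Fml → Prop
  | ext : Ax axExt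
  | found : Ax axFound
  | pair : Ax axPair
  | union : Ax axUnion
  | power : Ax axPower
  | inf : Ax axInf
  | sep (φ : Fml) : Ax (axSep φ)
  | repl (φ : Fml) : Ax (axRepl φ)
  | choice : Ax axChoice

theorem zfc_valid {M : Type*} {E : M → M → Prop} (h : ZFC E) {φ : Fml} (hφ : Ax φ) :
    Valid E φ := by
  intro v
  cases hφ with
  | ext => exact h.ext _ _
  | found => exact h.found _
  | pair => exact h.pair _ _
  | union => exact h.union _
  | power => exact h.power _
  | inf => exact h.infinity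
  | sep φ =>
    obtain ⟨y, hy⟩ := h.sep φ (fun k => v (k + 1)) (v 0)
    refine ⟨y, fun z => (hy z).trans (and_congr Iff.rfl ?_)⟩
    rw [sat_ren]
    refine iff_of_eq (congrArg _ ?_)
    funext k
    cases k <;> rfl
  | repl φ =>
    have e1 : ∀ a b : M, Sat E (ren ρ1 φ) (cons b (cons a v)) ↔
        Sat E φ (cons b (cons a fun k => v (k + 1))) := fun a b => by
      rw [sat_ren]
      refine iff_of_eq (congrArg _ ?_)
      funext k
      rcases k with _ | _ | k <;> rfl
    have e2 : ∀ a b b' : M, Sat E (ren ρ2 φ) (cons b' (cons b (cons a v))) ↔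
        Sat E φ (cons b' (cons a fun k => v (k + 1))) := fun a b b' => by
      rw [sat_ren]
      refine iff_of_eq (congrArg _ ?_)
      funext k
      rcases k with _ | _ | k <;> rfl
    have e3 : ∀ a b y : M, Sat E (ren ρ3 φ) (cons a (cons b (cons y v))) ↔
        Sat E φ (cons b (cons a fun k => v (k + 1))) := fun a b y => by
      rw [sat_ren]
      refine iff_of_eq (congrArg _ ?_)
      funext k
      rcases k with _ | _ | k <;> rfl
    intro H
    obtain ⟨y, hy⟩ := h.repl φ (fun k => v (k + 1)) (v 0) (fun a ha => by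
      obtain ⟨b, hb, hb'⟩ := H a ha
      exact ⟨b, (e1 a b).1 hb, fun b' h' => hb' b' ((e2 a b b').2 h')⟩)
    refine ⟨y, fun b => (hy b).trans (exists_congr fun a => and_congr Iff.rfl ?_)⟩
    exact (e3 a b y).symm
  | choice => exact h.choice _

theorem valid_zfc {M : Type*} [Nonempty M] {E : M → M → Prop} (h : ∀ φ, Ax φ → Valid E φ) :
    ZFC E where
  ext x y := h _ .ext (cons x fun _ => y)
  found x := h _ .found (fun _ => x)
  pair x y := h _ .pair (cons x fun _ => y)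
  union x := h _ .union (fun _ => x)
  power x := h _ .power (fun _ => x)
  infinity := h _ .inf (fun _ => Classical.arbitrary M)
  sep φ v x := by
    obtain ⟨y, hy⟩ := h _ (.sep φ) (cons x v)
    refine ⟨y, fun z => (hy z).trans (and_congr Iff.rfl ?_)⟩
    rw [sat_ren]
    refine iff_of_eq (congrArg _ ?_)
    funext k
    cases k <;> rfl
  repl φ v x H := by
    have e1 : ∀ a b : M, Sat E (ren ρ1 φ) (cons b (cons a (cons x v))) ↔
        Sat E φ (cons b (cons a v)) := fun a b => by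
      rw [sat_ren]
      refine iff_of_eq (congrArg _ ?_)
      funext k
      rcases k with _ | _ | k <;> rfl
    have e2 : ∀ a b b' : M, Sat E (ren ρ2 φ) (cons b' (cons b (cons a (cons x v)))) ↔
        Sat E φ (cons b' (cons a v)) := fun a b b' => by
      rw [sat_ren]
      refine iff_of_eq (congrArg _ ?_)
      funext k
      rcases k with _ | _ | k <;> rfl
    have e3 : ∀ a b y : M, Sat E (ren ρ3 φ) (cons a (cons b (cons y (cons x v)))) ↔
        Sat E φ (cons b (cons a v)) := fun a b y => by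
      rw [sat_ren]
      refine iff_of_eq (congrArg _ ?_)
      funext k
      rcases k with _ | _ | k <;> rfl
    obtain ⟨y, hy⟩ := h _ (.repl φ) (cons x v) (fun a ha => by
      obtain ⟨b, hb, hb'⟩ := H a ha
      exact ⟨b, (e1 a b).2 hb, fun b' h' => hb' b' ((e2 a b b').1 h')⟩)
    refine ⟨y, fun b => (hy b).trans (exists_congr fun a => and_congr Iff.rfl ?_)⟩
    exact e3 a b y
  choice x := h _ .choice (fun _ => x)

/-- `w` is `ω` -/
def fOmega (w : ℕ) : Fml := .and (fLimit w) (.all (.imp (.mem 0 (w + 1)) (.neg (fLimit 0))))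

theorem sat_fOmega {M : Type*} {E : M → M → Prop} {v : ℕ → M} {w : ℕ} :
    Sat E (fOmega w) v ↔ Omega E (v w) := Iff.rfl

/-- `b` is the successor cardinal of `a` -/
def fSucc (b a : ℕ) : Fml :=
  .and (fOrdl b) (.and (.neg (fCardLE b a)) (.all (.imp (.mem 0 (b + 1)) (fCardLE 0 (a + 1)))))

theorem sat_fSucc {M : Type*} {E : M → M → Prop} {v : ℕ → M} {b a : ℕ} :
    Sat E (fSucc b a) v ↔ SuccCard E (v b) (v a) := Iff.rfl

/-- `(M, E)` is a model of ZFC in which `w = ω`, `w1 = ω₁`, `w2 = ω₂` -/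
structure Mdl {M : Type*} (E : M → M → Prop) (w w1 w2 : M) : Prop where
  /-- a model of ZFC -/
  zfc : ZFC E
  /-- `w = ω` -/
  om : Omega E w
  /-- `w1 = ω₁` -/
  s1 : SuccCard E w1 w
  /-- `w2 = ω₂` -/
  s2 : SuccCard E w2 w1

end Pool.Agent.H21Abs
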