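import Pool.Agent.H21Abs.Ax

/-!
# Countable elementary substructures
-/

namespace Pool.Agent.H21Abs

open Pool.Agent.BVM

deriving instance Encodable for Fml

universe u

/-- a bound for the free variables of a formula -/
def bd : Fml → ℕ
  | .mem i j => max i j + 1
  | .eq i j => max i j + 1
  | .neg a => bd a
  | .and a b => max (bd a) (bd b)
  | .or a b => max (bd a) (bd b)
  | .imp a b => max (bd a) (bd b)
  | .iff a b => max (bd a) (bd b)
  | .all a => bd a
  | .ex a => bd a

/-- satisfaction only depends on the free variables -/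
theorem sat_congr {M : Type*} (E : M → M → Prop) (φ : Fml) :
    ∀ v v' : ℕ → M, (∀ k < bd φ, v k = v' k) → (Sat E φ v ↔ Sat E φ v') := by
  induction φ with
  | mem i j =>
    intro v v' h
    have hi : i < max i j + 1 := by omega
    have hj : j < max i j + 1 := by omega
    show E (v i) (v j) ↔ E (v' i) (v' j)
    rw [h i hi, h j hj]
  | eq i j =>
    intro v v' h
    have hi : i < max i j + 1 := by omega
    have hj : j < max i j + 1 := by omega
    show v i = v j ↔ v' i = v' j
    rw [h i hi, h j hj]
  | neg a ih => exact fun v v' h => not_congr (ih v v' h)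
  | and a b ih1 ih2 =>
    exact fun v v' h => and_congr (ih1 v v' fun k hk => h k (lt_of_lt_of_le hk (le_max_left _ _)))
      (ih2 v v' fun k hk => h k (lt_of_lt_of_le hk (le_max_right _ _)))
  | or a b ih1 ih2 =>
    exact fun v v' h => or_congr (ih1 v v' fun k hk => h k (lt_of_lt_of_le hk (le_max_left _ _)))
      (ih2 v v' fun k hk => h k (lt_of_lt_of_le hk (le_max_right _ _)))
  | imp a b ih1 ih2 =>
    exact fun v v' h => imp_congr (ih1 v v' fun k hk => h k (lt_of_lt_of_le hk (le_max_left _ _)))
      (ih2 v v' fun k hk => h k (lt_of_lt_of_le hk (le_max_right _ _)))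
  | iff a b ih1 ih2 =>
    exact fun v v' h => iff_congr (ih1 v v' fun k hk => h k (lt_of_lt_of_le hk (le_max_left _ _)))
      (ih2 v v' fun k hk => h k (lt_of_lt_of_le hk (le_max_right _ _)))
  | all a ih =>
    intro v v' h
    refine forall_congr' fun x => ih _ _ fun k hk => ?_
    cases k with
    | zero => rfl
    | succ k => exact h k (lt_trans (Nat.lt_succ_self k) hk)
  | ex a ih =>
    intro v v' h
    refine exists_congr fun x => ih _ _ fun k hk => ?_
    cases k with
    | zero => rfl
    | succ k => exact h k (lt_trans (Nat.lt_succ_self k) hk)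

section

variable {M : Type u} (E : M → M → Prop) (w : M)

/-- the assignment given by a list -/
def asg (l : List M) : ℕ → M := fun k => l.getD k w

/-- a witness for `∃ x φ` -/
noncomputable def wit (φ : Fml) (l : List M) : M := by
  classical
  exact if h : ∃ x, Sat E φ (cons x (asg w l)) then h.choose else w

theorem wit_spec (φ : Fml) (l : List M) (h : ∃ x, Sat E φ (cons x (asg w l))) :
    Sat E φ (cons (wit E w φ l) (asg w l)) := by
  unfold wit
  rw [dif_pos h]
  exact h.choose_spec

/-- the stages of the Skolem hull -/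
def hull (A : Set M) : ℕ → Set M
  | 0 => A
  | n + 1 => hull A n ∪ Set.range fun p : Fml × List (hull A n) =>
      wit E w p.1 (p.2.map Subtype.val)

theorem hull_countable {A : Set M} (hA : A.Countable) (n : ℕ) : (hull E w A n).Countable := by
  induction n with
  | zero => exact hA
  | succ n ih =>
    have : Countable (hull E w A n) := ih
    exact ih.union (Set.countable_range _)

theorem hull_mono (A : Set M) {m n : ℕ} (h : m ≤ n) : hull E w A m ⊆ hull E w A n := by
  induction n, h using Nat.le_induction with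
  | base => exact subset_rfl
  | succ n _ ih => exact ih.trans Set.subset_union_left

include w in
/-- there is a countable set containing `A` with the Tarski–Vaught property -/
theorem exists_tv {A : Set M} (hA : A.Countable) : ∃ S : Set M, A ⊆ S ∧ S.Countable ∧
    ∀ (φ : Fml) (v : ℕ → S), (∃ x, Sat E φ (cons x fun k => (v k : M))) →
      ∃ a : S, Sat E φ (cons (a : M) fun k => (v k : M)) := by
  refine ⟨⋃ n, hull E w A n, Set.subset_iUnion (hull E w A) 0,
    Set.countable_iUnion fun n => hull_countable E w hA n, ?_⟩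
  intro φ v h
  have h1 : ∃ n, ∀ k < bd φ, (v k : M) ∈ hull E w A n := by
    have : ∀ m, ∃ n, ∀ k < m, (v k : M) ∈ hull E w A n := by
      intro m
      induction m with
      | zero => exact ⟨0, fun k hk => absurd hk (Nat.not_lt_zero _)⟩
      | succ m ih =>
        obtain ⟨n, hn⟩ := ih
        obtain ⟨n', hn'⟩ := Set.mem_iUnion.1 (v m).2
        refine ⟨max n n', fun k hk => ?_⟩
        rcases Nat.lt_succ_iff_lt_or_eq.1 hk with h | rfl
        · exact hull_mono E w A (le_max_left _ _) (hn k h)
        · exact hull_mono E w A (le_max_right _ _) hn'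
    exact this _
  obtain ⟨n, hn⟩ := h1
  let l : List (hull E w A n) :=
    List.ofFn fun k : Fin (bd φ) => (⟨v k, hn k k.2⟩ : hull E w A n)
  have hl : ∀ k < bd φ, asg w (l.map Subtype.val) k = v k := by
    intro k hk
    show (l.map Subtype.val).getD k w = v k
    rw [List.getD_eq_getElem?_getD, List.getElem?_map]
    have : l[k]? = some ⟨v k, hn k hk⟩ := by
      rw [List.getElem?_ofFn, dif_pos hk]
    rw [this]
    rfl
  have hc : ∀ x, Sat E φ (cons x (asg w (l.map Subtype.val))) ↔
      Sat E φ (cons x fun k => (v k : M)) := fun x => by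
    refine sat_congr E φ _ _ fun k hk => ?_
    cases k with
    | zero => rfl
    | succ k => exact hl k (lt_trans (Nat.lt_succ_self k) hk)
  obtain ⟨x, hx⟩ := h
  have := wit_spec E w φ (l.map Subtype.val) ⟨x, (hc x).2 hx⟩
  refine ⟨⟨wit E w φ (l.map Subtype.val), Set.mem_iUnion.2 ⟨n + 1, Or.inr ⟨(φ, l), rfl⟩⟩⟩, ?_⟩
  exact (hc _).1 this

end

/-- the Tarski–Vaught test -/
theorem tarski_vaught {S : Type*} {M : Type*} {E : M → M → Prop} {i : S → M}
    (hi : Function.Injective i)
    (h : ∀ (φ : Fml) (v : ℕ → S), (∃ x, Sat E φ (cons x (i ∘ v))) →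
      ∃ a : S, Sat E φ (cons (i a) (i ∘ v))) (φ : Fml) :
    ∀ v : ℕ → S, Sat (fun a b => E (i a) (i b)) φ v ↔ Sat E φ (i ∘ v) := by
  induction φ with
  | mem a b => exact fun v => Iff.rfl
  | eq a b => exact fun v => hi.eq_iff.symm
  | neg _ ih => exact fun v => not_congr (ih v)
  | and _ _ ih1 ih2 => exact fun v => and_congr (ih1 v) (ih2 v)
  | or _ _ ih1 ih2 => exact fun v => or_congr (ih1 v) (ih2 v)
  | imp _ _ ih1 ih2 => exact fun v => imp_congr (ih1 v) (ih2 v)
  | iff _ _ ih1 ih2 => exact fun v => iff_congr (ih1 v) (ih2 v)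
  | all a ih =>
    intro v
    constructor
    · intro H
      by_contra hc
      obtain ⟨x, hx⟩ := not_forall.1 hc
      obtain ⟨s, hs⟩ := h (.neg a) v ⟨x, hx⟩
      refine hs ?_
      rw [← comp_cons]
      exact (ih _).1 (H s)
    · intro H s
      rw [ih, comp_cons]
      exact H _
  | ex a ih =>
    intro v
    constructor
    · rintro ⟨s, hs⟩
      rw [ih, comp_cons] at hs
      exact ⟨_, hs⟩
    · intro H
      obtain ⟨s, hs⟩ := h a v H
      refine ⟨s, ?_⟩
      rw [ih, comp_cons]
      exact hs

/-- a set of formulas (about `ω₁, ω₂`) is consistent: it holds in a countable model of ZFC -/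
def Con (Φ : Set Fml) : Prop := ∃ (M : Type) (_ : Countable M) (E : M → M → Prop)
  (w w1 w2 : M), Mdl E w w1 w2 ∧ ∀ φ ∈ Φ, Sat E φ (at2 w1 w2)

/-- Löwenheim–Skolem -/
theorem con_of {Φ : Set Fml} {M : Type u} {E : M → M → Prop} {w w1 w2 : M}
    (h : Mdl E w w1 w2) (hΦ : ∀ φ ∈ Φ, Sat E φ (at2 w1 w2)) : Con Φ := by
  obtain ⟨S, hA, hS, htv⟩ := exists_tv E w (A := {w, w1, w2}) (by simp)
  have : Countable S := hS
  have hsm : Small.{0} S := Countable.toSmall _
  let e : Shrink.{0} S ≃ S := (equivShrink.{0} S).symm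
  have hc : Countable (Shrink.{0} S) := e.countable_iff.2 this
  let i : Shrink.{0} S → M := fun s => (e s : M)
  have hi : Function.Injective i := Subtype.val_injective.comp e.injective
  have key := tarski_vaught (E := E) hi (fun φ v hx => by
    obtain ⟨a, ha⟩ := htv φ (e ∘ v) hx
    refine ⟨e.symm a, ?_⟩
    have : i (e.symm a) = (a : M) := by
      show ((e (e.symm a) : S) : M) = a
      rw [e.apply_symm_apply]
    rw [this]
    exact ha)
  have mem0 : ∀ x ∈ ({w, w1, w2} : Set M), ∃ s, i s = x := fun x hx => by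
    refine ⟨e.symm ⟨x, hA hx⟩, ?_⟩
    show ((e (e.symm _) : S) : M) = x
    rw [e.apply_symm_apply]
  obtain ⟨a, ha⟩ := mem0 w (by simp)
  obtain ⟨a1, ha1⟩ := mem0 w1 (by simp)
  obtain ⟨a2, ha2⟩ := mem0 w2 (by simp)
  have hne : Nonempty (Shrink.{0} S) := ⟨a⟩
  refine ⟨Shrink.{0} S, hc, fun x y => E (i x) (i y), a, a1, a2, ⟨?_, ?_, ?_, ?_⟩, ?_⟩
  · exact valid_zfc fun φ hφ v => (key φ v).2 (zfc_valid h.zfc hφ _)
  · have := key (fOmega 0) (fun _ => a)
    refine this.2 ?_
    rw [sat_fOmega]
    show Omega E (i a)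
    rw [ha]
    exact h.om
  · have := key (fSucc 0 1) (cons a1 fun _ => a)
    refine this.2 ?_
    rw [sat_fSucc]
    show SuccCard E (i a1) (i a)
    rw [ha, ha1]
    exact h.s1
  · have := key (fSucc 0 1) (cons a2 fun _ => a1)
    refine this.2 ?_
    rw [sat_fSucc]
    show SuccCard E (i a2) (i a1)
    rw [ha2, ha1]
    exact h.s2
  · intro φ hφ
    rw [key, comp_at2, ha1, ha2]
    exact hΦ φ hφ

end Pool.Agent.H21Abs
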