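import Pool.Agent.H21Abs.Ax

/-!
# Ultraproducts: the compactness argument
-/

namespace Pool.Agent.H21Abs

open Pool.Agent.BVM Filter

universe u

section

variable (U : Ultrafilter ℕ) {X : ℕ → Type u} (E : ∀ n, X n → X n → Prop)

/-- the ultraproduct -/
abbrev UP (U : Ultrafilter ℕ) (X : ℕ → Type u) : Type u := (U : Filter ℕ).Product X

/-- the class of a sequence -/
def mk (x : ∀ n, X n) : UP U X := Quotient.mk (productSetoid (U : Filter ℕ) X) x

theorem mk_eq (x y : ∀ n, X n) : mk U x = mk U y ↔ ∀ᶠ n in (U : Filter ℕ), x n = y n :=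
  Quotient.eq (r := productSetoid (U : Filter ℕ) X)

theorem exists_rep (q : UP U X) : ∃ x : ∀ n, X n, mk U x = q := Quotient.exists_rep q

/-- membership in the ultraproduct -/
def EU : UP U X → UP U X → Prop := fun a b =>
  ∃ x y : ∀ n, X n, mk U x = a ∧ mk U y = b ∧ ∀ᶠ n in (U : Filter ℕ), E n (x n) (y n)

theorem EU_mk (x y : ∀ n, X n) :
    EU U E (mk U x) (mk U y) ↔ ∀ᶠ n in (U : Filter ℕ), E n (x n) (y n) := by
  constructor
  · rintro ⟨x', y', hx, hy, h⟩
    rw [mk_eq] at hx hy
    filter_upwards [hx, hy, h] with n h1 h2 h3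
    rwa [← h1, ← h2]
  · exact fun h => ⟨x, y, rfl, rfl, h⟩

theorem mk_cons (x : ∀ n, X n) (v : ℕ → ∀ n, X n) :
    cons (mk U x) (fun k => mk U (v k)) = fun k => mk U (cons x v k) := by
  funext k
  cases k <;> rfl

theorem cons_at (x : ∀ n, X n) (v : ℕ → ∀ n, X n) (n : ℕ) :
    cons (x n) (fun k => v k n) = fun k => cons x v k n := by
  funext k
  cases k <;> rfl

/-- Łoś' theorem -/
theorem los (φ : Fml) : ∀ v : ℕ → ∀ n, X n,
    Sat (EU U E) φ (fun k => mk U (v k)) ↔
      ∀ᶠ n in (U : Filter ℕ), Sat (E n) φ (fun k => v k n) := by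
  induction φ with
  | mem i j => exact fun v => EU_mk U E _ _
  | eq i j => exact fun v => mk_eq U _ _
  | neg a ih => exact fun v => (not_congr (ih v)).trans Ultrafilter.eventually_not.symm
  | and a b ih1 ih2 =>
    exact fun v => (and_congr (ih1 v) (ih2 v)).trans eventually_and.symm
  | or a b ih1 ih2 =>
    exact fun v => (or_congr (ih1 v) (ih2 v)).trans Ultrafilter.eventually_or.symm
  | imp a b ih1 ih2 =>
    exact fun v => (imp_congr (ih1 v) (ih2 v)).trans Ultrafilter.eventually_imp.symm
  | iff a b ih1 ih2 =>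
    intro v
    have h1 : (∀ᶠ n in (U : Filter ℕ), Sat (E n) (.iff a b) fun k => v k n) ↔
        (∀ᶠ n in (U : Filter ℕ), (Sat (E n) a fun k => v k n) → Sat (E n) b fun k => v k n) ∧
        (∀ᶠ n in (U : Filter ℕ), (Sat (E n) b fun k => v k n) → Sat (E n) a fun k => v k n) := by
      rw [← eventually_and]
      refine eventually_congr (Eventually.of_forall fun n => ?_)
      exact iff_iff_implies_and_implies
    rw [h1, Ultrafilter.eventually_imp, Ultrafilter.eventually_imp, ← ih1 v, ← ih2 v]
    exact iff_iff_implies_and_implies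
  | all a ih =>
    intro v
    constructor
    · intro H
      by_contra hc
      rw [← Ultrafilter.eventually_not] at hc
      have : ∀ n, ∃ x : X n, (¬ Sat (E n) (.all a) fun k => v k n) →
          ¬ Sat (E n) a (cons x fun k => v k n) := fun n => by
        by_cases hn : Sat (E n) (.all a) fun k => v k n
        · exact ⟨v 0 n, fun h => absurd hn h⟩
        · obtain ⟨x, hx⟩ := not_forall.1 hn
          exact ⟨x, fun _ => hx⟩
      choose x hx using this
      have h1 := H (mk U x)
      rw [mk_cons, ih] at h1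
      obtain ⟨n, h2, h3⟩ := (hc.and h1).exists
      refine hx n h2 ?_
      rw [cons_at]
      exact h3
    · intro H q
      obtain ⟨x, rfl⟩ := exists_rep U q
      rw [mk_cons, ih]
      filter_upwards [H] with n hn
      rw [← cons_at]
      exact hn (x n)
  | ex a ih =>
    intro v
    constructor
    · rintro ⟨q, hq⟩
      obtain ⟨x, rfl⟩ := exists_rep U q
      rw [mk_cons, ih] at hq
      filter_upwards [hq] with n hn
      rw [← cons_at] at hn
      exact ⟨x n, hn⟩
    · intro H
      have : ∀ n, ∃ x : X n, (Sat (E n) (.ex a) fun k => v k n) →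
          Sat (E n) a (cons x fun k => v k n) := fun n => by
        by_cases hn : Sat (E n) (.ex a) fun k => v k n
        · obtain ⟨x, hx⟩ := hn
          exact ⟨x, fun _ => hx⟩
        · exact ⟨v 0 n, fun h => absurd h hn⟩
      choose x hx using this
      refine ⟨mk U x, ?_⟩
      rw [mk_cons, ih]
      filter_upwards [H] with n hn
      rw [← cons_at]
      exact hx n hn

theorem valid_up {φ : Fml} (h : ∀ n, Valid (E n) φ) : Valid (EU U E) φ := by
  intro v
  choose r hr using fun k => exists_rep U (v k)
  have : v = fun k => mk U (r k) := funext fun k => (hr k).symm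
  rw [this, los]
  exact Eventually.of_forall fun n => h n _

/-- an ultraproduct of models is a model -/
theorem mdl_up (w w1 w2 : ∀ n, X n) (h : ∀ n, Mdl (E n) (w n) (w1 n) (w2 n)) :
    Mdl (EU U E) (mk U w) (mk U w1) (mk U w2) := by
  have : Nonempty (UP U X) := ⟨mk U w⟩
  refine ⟨valid_zfc fun φ hφ => valid_up U E fun n => zfc_valid (h n).zfc hφ, ?_, ?_, ?_⟩
  · have := los U E (fOmega 0) (fun _ => w)
    exact this.2 (Eventually.of_forall fun n => (h n).om)
  · have := los U E (fSucc 0 1) (cons w1 fun _ => w)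
    rw [← mk_cons] at this
    refine this.2 (Eventually.of_forall fun n => ?_)
    rw [← cons_at]
    exact (h n).s1
  · have := los U E (fSucc 0 1) (cons w2 fun _ => w1)
    rw [← mk_cons] at this
    refine this.2 (Eventually.of_forall fun n => ?_)
    rw [← cons_at]
    exact (h n).s2

end

end Pool.Agent.H21Abs
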