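import Pool.Agent.BVM.Final
import Pool.Agent.H21Abs.Ultra
import Pool.Agent.H21Abs.LS

/-!
# A model of ZFC whose `Σ₁(ω₁, ω₂)` theory is maximal
-/

namespace Pool.Agent.H21Abs

open Pool.Agent.BVM

/-- a countable increasing union of consistent sets is consistent -/
theorem con_iUnion {Φ : ℕ → Set Fml} (hm : Monotone Φ) (h : ∀ n, Con (Φ n)) :
    Con (⋃ n, Φ n) := by
  choose X _ E w w1 w2 hM hΦ using h
  let U : Ultrafilter ℕ := Filter.hyperfilter ℕ
  have hU : ∀ m, ∀ᶠ n in (U : Filter ℕ), m ≤ n := fun m =>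
    Nat.hyperfilter_le_atTop (Filter.eventually_ge_atTop m)
  refine con_of (mdl_up U E w w1 w2 hM) fun φ hφ => ?_
  obtain ⟨m, hm'⟩ := Set.mem_iUnion.1 hφ
  have e : at2 (mk U w1) (mk U w2) = fun k => mk U (at2 w1 w2 k) := by
    funext k
    cases k <;> rfl
  rw [e, los]
  filter_upwards [hU m] with n hn
  have := hΦ n φ (hm hn hm')
  have e' : (fun k => at2 w1 w2 k n) = at2 (w1 n) (w2 n) := by
    funext k
    cases k <;> rfl
  rw [e']
  exact this

theorem con_empty : Con ∅ := by
  obtain ⟨M, E, hZ, w, w1, w2, w3, h0, h1, h2, _⟩ := exists_model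
  exact con_of (M := M) ⟨hZ, h0, h1, h2⟩ fun φ h => absurd h (Set.notMem_empty _)

open Classical in
/-- the stages of the construction of the maximal set of `Σ₁` sentences -/
noncomputable def stage : ℕ → Set Fml
  | 0 => ∅
  | n + 1 => match Encodable.decode (α := Fml) n with
    | none => stage n
    | some φ => if Sigma1 φ ∧ Con (insert φ (stage n)) then insert φ (stage n) else stage n

theorem stage_succ {n : ℕ} {φ : Fml} (h : Encodable.decode (α := Fml) n = some φ)
    (h1 : Sigma1 φ) (h2 : Con (insert φ (stage n))) : φ ∈ stage (n + 1) := by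
  rw [stage, h]
  simp only
  rw [if_pos ⟨h1, h2⟩]
  exact Set.mem_insert _ _

theorem stage_mono : Monotone stage := by
  refine monotone_nat_of_le_succ fun n => ?_
  rw [stage]
  split
  · exact le_rfl
  · split_ifs
    · exact Set.subset_insert _ _
    · exact le_rfl

theorem stage_con (n : ℕ) : Con (stage n) := by
  induction n with
  | zero => exact con_empty
  | succ n ih =>
    rw [stage]
    split
    · exact ih
    · split_ifs with h
      · exact h.2
      · exact ih

theorem stage_sigma (n : ℕ) : ∀ φ ∈ stage n, Sigma1 φ := by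
  induction n with
  | zero => exact fun φ h => absurd h (Set.notMem_empty _)
  | succ n ih =>
    rw [stage]
    split
    · exact ih
    · split_ifs with h
      · intro φ hφ
        rcases Set.mem_insert_iff.1 hφ with rfl | h'
        · exact h.1
        · exact ih φ h'
      · exact ih

theorem con_mono {Φ Ψ : Set Fml} (h : Φ ⊆ Ψ) (hΨ : Con Ψ) : Con Φ := by
  obtain ⟨M, hM, E, w, w1, w2, h1, h2⟩ := hΨ
  exact ⟨M, hM, E, w, w1, w2, h1, fun φ hφ => h2 φ (h hφ)⟩

universe u

/-- a countable model `(M, E)` of ZFC such that every `Σ₁` statement about `ω₁, ω₂` that holds in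
some end extension of `(M, E)` to a model of ZFC with the same `ω₁, ω₂` holds in `(M, E)` -/
theorem exists_maximal : ∃ (M : Type) (_ : Countable M) (E : M → M → Prop) (w w1 w2 : M),
    Mdl E w w1 w2 ∧ ∀ φ, Sigma1 φ → ∀ (N : Type u) (E' : N → N → Prop) (j : M → N),
      ZFC E' → EndExt E E' j → SuccCard E' (j w1) (j w) → SuccCard E' (j w2) (j w1) →
      Sat E' φ (at2 (j w1) (j w2)) → Sat E φ (at2 w1 w2) := by
  obtain ⟨M, hc, E, w, w1, w2, hM, hΦ⟩ := con_iUnion stage_mono stage_con
  refine ⟨M, hc, E, w, w1, w2, hM, ?_⟩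
  intro φ hφ N E' j hZ hj h1 h2 hs
  refine hΦ φ (Set.mem_iUnion.2 ⟨Encodable.encode φ + 1, ?_⟩)
  refine stage_succ (Encodable.encodek φ) hφ ?_
  refine con_of (M := N) (E := E') (w := j w) (w1 := j w1) (w2 := j w2)
    ⟨hZ, hj.omega w hM.om, h1, h2⟩ ?_
  intro ψ hψ
  rcases Set.mem_insert_iff.1 hψ with rfl | h'
  · exact hs
  · have := (stage_sigma _ ψ h').up hj _ (hΦ ψ (Set.mem_iUnion.2 ⟨_, h'⟩))
    rwa [comp_at2] at this

end Pool.Agent.H21Abs
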